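import Pool.Agent.MP_c05c30_lc.Alg

open Pool.Agent.MP_c05c30_lc FirstOrder

theorem Pool.Agent.Results.MP_c05c30_lc.Counterexample.result :
    ∃ (S : Type) (_ : Semigroup S),
      LogicallyHomogeneous semigroupLang S (semigroupStr S) ∧
      (∃ (P : Type) (_ : Field P),
        LogicallyHomogeneous Language.ring P (Ring.compatibleRingOfRing P).toStructure) ∧
      ∀ (P : Type) [Field P], ¬ LogicallyHomogeneous (algebraLang P) (MonoidAlgebra P S)
        (algebraStr P (MonoidAlgebra P S)) :=
  ⟨SG ℝ, inferInstance, SG.homogeneous, ⟨ZMod 2, inferInstance, zmod2_homogeneous⟩,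
    fun P _ => not_homogeneous P⟩
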